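import Pool.Agent.Helper92.BO.GoalsA

/-!
# Stable set polytopes: positivity of the iterated integrals
-/

namespace Pool.Agent.Helper56.BO

open Pool.Agent.Helper92.BO MeasureTheory Set

theorem cut_in01 (G : SimpleGraph ℕ) (v : ℕ) (L : List ℕ) (b : ℕ → ℝ) (hb : In01 L b) (c : ℝ)
    (h0 : 0 ≤ c) : In01 L (cut G v c b) := by
  intro u hu
  have h := hb u hu
  unfold cut
  split_ifs
  · exact ⟨le_min h.1 h0, (min_le_left _ _).trans h.2⟩
  · exact h

theorem cut_pos1 (G : SimpleGraph ℕ) (v : ℕ) (L : List ℕ) (b : ℕ → ℝ) (hb : Pos1 L b) (c : ℝ)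
    (h0 : 0 < c) : Pos1 L (cut G v c b) := by
  intro u hu
  have h := hb u hu
  unfold cut
  split_ifs
  · exact ⟨lt_min h.1 h0, (min_le_left _ _).trans h.2⟩
  · exact h

theorem psiR_pos (l x : ℝ) (h : 0 < l) : 0 < psiR l x := by
  unfold psiR
  split_ifs
  · norm_num
  · exact h

theorem psiR_le (l x : ℝ) (h : l ≤ 1) : psiR l x ≤ 1 := by
  unfold psiR
  split_ifs
  · norm_num
  · exact h

theorem pos (hcnt : CntStmt) : PosStmt := by
  intro G l L b hl hl1
  induction L generalizing b with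
  | nil =>
    refine ⟨fun _ => ?_, fun _ => ?_⟩
    · show (0 : ℝ) ≤ 1 ∧ (1 : ℝ) ≤ 1
      norm_num
    · show (0 : ℝ) < 1
      norm_num
  | cons v L ih =>
    refine ⟨fun hb => ?_, fun hb => ?_⟩
    · have hv : 0 ≤ b v ∧ b v ≤ 1 := hb v (List.mem_cons_self ..)
      have hL : In01 L b := fun u hu => hb u (List.mem_cons_of_mem _ hu)
      have key : ∀ x, 0 ≤ x → x ≤ b v → 0 ≤ psiR l x * ZR G l L (cut G v (1 - x) b) ∧
          psiR l x * ZR G l L (cut G v (1 - x) b) ≤ 1 := by
        intro x hx0 hx1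
        have hx : 0 ≤ 1 - x := by linarith [hv.2]
        have h1 := (ih (cut G v (1 - x) b)).1 (cut_in01 G v L b hL _ hx)
        have h2 := psiR_pos l x hl
        have h3 := psiR_le l x hl1
        exact ⟨mul_nonneg h2.le h1.1, mul_le_one₀ h3 h1.1 h1.2⟩
      show 0 ≤ (∫ x in (0 : ℝ)..(b v), psiR l x * ZR G l L (cut G v (1 - x) b)) ∧
        (∫ x in (0 : ℝ)..(b v), psiR l x * ZR G l L (cut G v (1 - x) b)) ≤ 1
      refine ⟨intervalIntegral.integral_nonneg hv.1 fun x hx => (key x hx.1 hx.2).1, ?_⟩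
      have h := intervalIntegral.norm_integral_le_of_norm_le_const (a := (0 : ℝ)) (b := b v)
        (C := 1) (f := fun x => psiR l x * ZR G l L (cut G v (1 - x) b)) (fun x hx => by
          rw [uIoc_of_le hv.1] at hx
          have h := key x hx.1.le hx.2
          rw [Real.norm_eq_abs, abs_of_nonneg h.1]
          exact h.2)
      rw [Real.norm_eq_abs, sub_zero, abs_of_nonneg hv.1, one_mul] at h
      exact (le_abs_self _).trans (h.trans hv.2)
    · have hv : 0 < b v ∧ b v ≤ 1 := hb v (List.mem_cons_self ..)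
      have hL : Pos1 L b := fun u hu => hb u (List.mem_cons_of_mem _ hu)
      have hL' : In01 L b := fun u hu => ⟨(hL u hu).1.le, (hL u hu).2⟩
      show 0 < ∫ x in (0 : ℝ)..(b v), psiR l x * ZR G l L (cut G v (1 - x) b)
      have hint := (hcnt G 0 l L v b hL').2.2.2
      refine intervalIntegral.intervalIntegral_pos_of_pos_on
        (hint.mono_set ?_) (fun x hx => ?_) hv.1
      · rw [uIcc_of_le hv.1.le, uIcc_of_le zero_le_one]
        exact Icc_subset_Icc le_rfl hv.2
      · have hx1 : 0 < 1 - x := by linarith [hx.2, hv.2]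
        exact mul_pos (psiR_pos l x hl) ((ih (cut G v (1 - x) b)).2
          (cut_pos1 G v L b hL _ hx1))

end Pool.Agent.Helper56.BO
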