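import Pool.Agent.Helper92.BO.GoalsE

/-!
# Stable set polytopes: the common denominator
-/

namespace Pool.Agent.Helper56.BO

open Pool.Agent.Helper92.BO Pool.Agent.Bin

theorem qmd : QmdStmt := by
  intro Δ m
  unfold qm
  rw [BN.val_prod, List.map_map]
  generalize m * (Δ + 1) = N
  induction N with
  | zero => simp
  | succ N ih =>
    rw [List.range_succ, List.map_append, List.prod_append, ih, Nat.factorial_succ]
    simp [mul_comm]

end Pool.Agent.Helper56.BO
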